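import Pool.Agent.Q82.LogPot7

open Set MeasureTheory Pool.Agent.Q82.LP

namespace Pool.Agent.Results.MP_86d647_an.Polarization

/-- Polarization does not lower the negative eigenvalue of the logarithmic potential operator:
for every bounded measurable set `Ω` of the plane and every half-plane (with unit inner normal
`e`), each negative eigenvalue of the operator of the polarized set is at least a negative
eigenvalue of the operator of `Ω`; in particular `tau Ω ≤ tau (polarize e c Ω)`. -/
theorem result (Ω : Set ℂ) (hΩ : MeasurableSet Ω) (hb : Bornology.IsBounded Ω) (e : ℂ)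
    (he : ‖e‖ = 1) (c : ℝ) :
    (∀ r < 0, IsEigenvalue (polarize e c Ω) r → ∃ m ≤ r, IsEigenvalue Ω m) ∧
      tau Ω ≤ tau (polarize e c Ω) :=
  polarization Ω hΩ hb e he c

end Pool.Agent.Results.MP_86d647_an.Polarization
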